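import Pool.Agent.Helper66.Gap.Final

/-!
If `G` is a gap-free graph and `n` is the regularity of its edge ideal `I`, then `I ^ s` has a
linear resolution for every `s ≥ n - 1`.
-/

namespace Pool.Agent.Results.MP_e9bb92_al.LinearPowers

open Pool.Agent.Helper66.Gap

/-- Powers of edge ideals of gap-free graphs have linear resolutions from `reg I - 1` on. -/
theorem result {V : Type*} [Fintype V] {K : Type*} [Field K] (G : SimpleGraph V)
    (hG : GapFree G) (n : ℕ) (hn : IsReg (edgeIdeal K G) n) (s : ℕ) (hs : n - 1 ≤ s) :
    HasLinearRes ((edgeIdeal K G) ^ s) (2 * s) := by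
  letI : LinearOrder V := LinearOrder.lift' (Fintype.equivFin V) (Fintype.equivFin V).injective
  exact linear_powers hG hn.1 (by omega)

end Pool.Agent.Results.MP_e9bb92_al.LinearPowers
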